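import Pool.Agent.H46.HH.NRM
import Pool.Agent.H16.HH.GRC

/-!
# Module GRA: inclusion and exclusion for the small primes
-/

set_option autoImplicit false

open NumberField Filter Topology
open scoped ContDiff nonZeroDivisors

namespace Pool.Agent.H99.HH

open Pool.Agent.H33.HH Pool.Agent.H28.RC Pool.Agent.H37.CV

section

variable {K : Type} [Field K] [NumberField K]

/-- membership in `c / b` -/
theorem mem_qf {c b : Ideal (𝓞 K)} (hb : b ≠ ⊥) (γ : K) :
    γ ∈ qf c b ↔ ∃ m : Ideal (𝓞 K), Mu γ b (c * m) := by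
  have hb0 : (b : FractionalIdeal (𝓞 K)⁰ K) ≠ 0 := FractionalIdeal.coeIdeal_ne_zero.2 hb
  unfold qf Mu
  constructor
  · intro h
    have h1 : FractionalIdeal.spanSingleton (𝓞 K)⁰ γ ≤
        (c : FractionalIdeal (𝓞 K)⁰ K) * ((b : FractionalIdeal (𝓞 K)⁰ K))⁻¹ :=
      FractionalIdeal.spanSingleton_le_iff_mem.2 h
    have h2 : FractionalIdeal.spanSingleton (𝓞 K)⁰ γ * (b : FractionalIdeal (𝓞 K)⁰ K) ≤
        (c : FractionalIdeal (𝓞 K)⁰ K) := by
      refine (mul_le_mul_left h1 (b : FractionalIdeal (𝓞 K)⁰ K)).trans ?_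
      rw [mul_assoc, inv_mul_cancel₀ hb0, mul_one]
    have h3 : FractionalIdeal.spanSingleton (𝓞 K)⁰ γ * (b : FractionalIdeal (𝓞 K)⁰ K) ≤ 1 :=
      h2.trans FractionalIdeal.coeIdeal_le_one
    obtain ⟨I, hI⟩ := FractionalIdeal.le_one_iff_exists_coeIdeal.1 h3
    rw [← hI, FractionalIdeal.coeIdeal_le_coeIdeal] at h2
    obtain ⟨m, hm⟩ := Ideal.dvd_iff_le.2 h2
    exact ⟨m, by rw [← hI, hm]⟩
  · rintro ⟨m, hm⟩
    have h1 : FractionalIdeal.spanSingleton (𝓞 K)⁰ γ =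
        ((c * m : Ideal (𝓞 K)) : FractionalIdeal (𝓞 K)⁰ K) *
          ((b : FractionalIdeal (𝓞 K)⁰ K))⁻¹ := by
      rw [← hm, mul_assoc, mul_inv_cancel₀ hb0, mul_one]
    refine FractionalIdeal.spanSingleton_le_iff_mem.1 ?_
    rw [h1]
    refine mul_le_mul_left ?_ _
    exact (FractionalIdeal.coeIdeal_le_coeIdeal (R := 𝓞 K) K).2
      (Ideal.mul_le_left : c * m ≤ c)

theorem mu_uniq {γ : K} {I J J' : Ideal (𝓞 K)} (h : Mu γ I J) (h' : Mu γ I J') : J = J' := by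
  unfold Mu at h h'
  exact FractionalIdeal.coeIdeal_injective (h.symm.trans h')

theorem idS_dvd (A : Finset (PrI K)) (m : Ideal (𝓞 K)) : idS A ∣ m ↔ ∀ p ∈ A, m ≤ p.1 := by
  constructor
  · intro h p hp
    exact (Ideal.dvd_iff_le.1 h).trans ((Pool.Agent.H16.HH.idS_le A p).2 hp)
  · intro h
    unfold idS
    refine Finset.prod_dvd_of_coprime ?_ ?_
    · intro p _ q _ hpq
      rw [Function.onFun, Ideal.isCoprime_iff_sup_eq]
      refine Pool.Agent.H16.HH.cop _ _ (fun r h4 h5 => hpq ?_) p.2.2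
      have h6 : p.1 = r.1 := (Pool.Agent.H16.HH.prI_max p).eq_of_le r.2.1.ne_top h4
      have h7 : q.1 = r.1 := (Pool.Agent.H16.HH.prI_max q).eq_of_le r.2.1.ne_top h5
      exact Subtype.ext (h6.trans h7.symm)
    · intro p hp
      rw [Ideal.dvd_iff_le]
      exact h p hp

open scoped Classical in
/-- inclusion and exclusion for an ideal -/
theorem incl (P : ℝ) (hP : (SP K P).Nonempty) (m : Ideal (𝓞 K)) :
    (∑ A ∈ (SP K P).powerset, (-1 : ℝ) ^ A.card * (if idS A ∣ m then 1 else 0)) =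
      if m ≠ ⊥ ∧ Cp P m then 1 else 0 := by
  have h1 : (∑ A ∈ (SP K P).powerset, (-1 : ℝ) ^ A.card * (if idS A ∣ m then 1 else 0)) =
      ∑ A ∈ ((SP K P).filter fun p => m ≤ p.1).powerset, (-1 : ℝ) ^ A.card := by
    have h2 : ((SP K P).filter fun p => m ≤ p.1).powerset =
        (SP K P).powerset.filter fun A => idS A ∣ m := by
      ext A
      rw [Finset.mem_filter, Finset.mem_powerset, Finset.mem_powerset, idS_dvd]
      constructor
      · intro h
        exact ⟨h.trans (Finset.filter_subset _ _), fun p hp => (Finset.mem_filter.1 (h hp)).2⟩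
      · rintro ⟨h, h'⟩ p hp
        exact Finset.mem_filter.2 ⟨h hp, h' p hp⟩
    rw [h2, Finset.sum_filter]
    refine Finset.sum_congr rfl fun A _ => ?_
    split_ifs <;> simp
  have h3 : (∑ A ∈ ((SP K P).filter fun p => m ≤ p.1).powerset, (-1 : ℝ) ^ A.card) =
      if ((SP K P).filter fun p => m ≤ p.1) = ∅ then 1 else 0 := by
    have := Finset.sum_powerset_neg_one_pow_card
      (x := (SP K P).filter fun p => m ≤ p.1)
    have h4 : ((∑ A ∈ ((SP K P).filter fun p => m ≤ p.1).powerset, (-1 : ℤ) ^ A.card : ℤ) : ℝ) =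
        ((if ((SP K P).filter fun p => m ≤ p.1) = ∅ then 1 else 0 : ℤ) : ℝ) := by
      rw [this]
    push_cast at h4
    exact h4
  rw [h1, h3]
  refine if_congr ?_ rfl rfl
  rw [Finset.filter_eq_empty_iff]
  constructor
  · intro h
    refine ⟨?_, ?_⟩
    · rintro rfl
      obtain ⟨p, hp⟩ := hP
      exact h hp bot_le
    · intro p hp
      by_contra hle
      exact h (Pool.Agent.H16.HH.mem_SP.2 (not_lt.1 hle)) hp
  · rintro ⟨_, h⟩ p hp hle
    exact absurd (Pool.Agent.H16.HH.mem_SP.1 hp) (not_le.2 (h p hle))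

open scoped Classical in
/-- the indicator for one of the two conditions -/
theorem ind (P : ℝ) (hP : (SP K P).Nonempty) {a b : Ideal (𝓞 K)} (ha : a ≠ ⊥) (hb : b ≠ ⊥)
    (γ : K) :
    (∑ A ∈ (SP K P).powerset, (-1 : ℝ) ^ A.card * (if γ ∈ qf (idS A * a) b then 1 else 0)) =
      if ∃ m, m ≠ ⊥ ∧ Cp P m ∧ Mu γ b (a * m) then 1 else 0 := by
  by_cases h : ∃ m, Mu γ b (a * m)
  · obtain ⟨m, hm⟩ := h
    have h1 : ∀ A : Finset (PrI K), γ ∈ qf (idS A * a) b ↔ idS A ∣ m := by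
      intro A
      rw [mem_qf hb]
      constructor
      · rintro ⟨m', hm'⟩
        have h2 := mu_uniq hm hm'
        rw [mul_comm (idS A) a, mul_assoc] at h2
        exact ⟨m', mul_left_cancel₀ ha h2⟩
      · rintro ⟨m', rfl⟩
        refine ⟨m', ?_⟩
        rw [mul_comm (idS A) a, mul_assoc]
        exact hm
    have h2 : (∃ m, m ≠ ⊥ ∧ Cp P m ∧ Mu γ b (a * m)) ↔ m ≠ ⊥ ∧ Cp P m := by
      constructor
      · rintro ⟨m', h3, h4, h5⟩
        have h6 : m = m' := mul_left_cancel₀ ha (mu_uniq hm h5)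
        rw [h6]
        exact ⟨h3, h4⟩
      · rintro ⟨h3, h4⟩
        exact ⟨m, h3, h4, hm⟩
    rw [if_congr h2 rfl rfl, ← incl P hP m]
    refine Finset.sum_congr rfl fun A _ => ?_
    rw [if_congr (h1 A) rfl rfl]
  · rw [if_neg (fun h' => h (by obtain ⟨m, -, -, hm⟩ := h'; exact ⟨m, hm⟩))]
    refine Finset.sum_eq_zero fun A _ => ?_
    rw [if_neg, mul_zero]
    intro h'
    obtain ⟨m, hm⟩ := (mem_qf hb γ).1 h'
    rw [mul_comm (idS A) a, mul_assoc] at hm
    exact h ⟨_, hm⟩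

/-- the elements of a fractional ideal in a disc -/
theorem fin_disc [IQ K] {a b : Ideal (𝓞 K)} (hb : b ≠ ⊥) (R : ℝ) :
    {γ : K | γ ∈ qf a b ∧ ‖em K γ - 1‖ ≤ R}.Finite := by
  obtain ⟨d, hdb, hd⟩ := Submodule.exists_mem_ne_zero_of_ne_bot hb
  have hd' : ((d : 𝓞 K) : K) ≠ 0 := by exact_mod_cast hd
  have hfin := NumberField.Embeddings.finite_of_norm_le K ℂ (‖em K (d : K)‖ * (R + 1))
  refine Set.Finite.of_finite_image (f := fun γ : K => γ * (d : K)) (hfin.subset ?_) ?_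
  · rintro _ ⟨γ, ⟨h1, h2⟩, rfl⟩
    obtain ⟨m, hm⟩ := (mem_qf hb γ).1 h1
    refine ⟨?_, ?_⟩
    · have h3 : γ * (d : K) ∈ FractionalIdeal.spanSingleton (𝓞 K)⁰ γ *
          (b : FractionalIdeal (𝓞 K)⁰ K) :=
        FractionalIdeal.mul_mem_mul (FractionalIdeal.mem_spanSingleton_self _ γ)
          (FractionalIdeal.mem_coeIdeal_of_mem _ hdb)
      unfold Mu at hm
      rw [hm] at h3
      obtain ⟨x, -, hx⟩ := (FractionalIdeal.mem_coeIdeal _).1 h3
      show IsIntegral ℤ (γ * (d : K))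
      rw [← hx]
      exact x.2
    · intro φ
      have h3 := Pool.Agent.H46.HH.place K (InfinitePlace.mk φ) (γ * (d : K))
      rw [InfinitePlace.apply] at h3
      rw [h3, map_mul, norm_mul, mul_comm]
      refine mul_le_mul_of_nonneg_left ?_ (norm_nonneg _)
      calc ‖em K γ‖ = ‖(em K γ - 1) + 1‖ := by ring_nf
        _ ≤ ‖em K γ - 1‖ + ‖(1 : ℂ)‖ := norm_add_le _ _
        _ ≤ R + 1 := by rw [norm_one]; linarith
  · intro x _ y _ hxy
    exact mul_right_cancel₀ hd' hxy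

theorem qf_le {c a b : Ideal (𝓞 K)} (hb : b ≠ ⊥) {γ : K} (h : γ ∈ qf (c * a) b) : γ ∈ qf a b := by
  obtain ⟨m, hm⟩ := (mem_qf hb γ).1 h
  refine (mem_qf hb γ).2 ⟨c * m, ?_⟩
  rw [show a * (c * m) = c * a * m by ring]
  exact hm

end

theorem tsum_sub {α : Type} (p : α → Prop) [DecidablePred p] (f : α → ℝ) (T : Finset α)
    (h : ∀ x, p x → f x ≠ 0 → x ∈ T) :
    ∑' x : {x // p x}, f x.1 = ∑ x ∈ T, (if p x then 1 else 0) * f x := by
  have h1 : ∑' x : {x // p x}, f x.1 = ∑' x, Set.indicator {x | p x} f x :=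
    tsum_subtype {x | p x} f
  rw [h1, tsum_eq_sum (s := T)]
  · refine Finset.sum_congr rfl fun x _ => ?_
    by_cases hx : p x
    · rw [Set.indicator_of_mem (show x ∈ {x | p x} from hx), if_pos hx, one_mul]
    · rw [Set.indicator_of_notMem (show x ∉ {x | p x} from hx), if_neg hx, zero_mul]
  · intro x hx
    by_cases hp : p x
    · rw [Set.indicator_of_mem (show x ∈ {x | p x} from hp)]
      by_contra h0
      exact hx (h x hp h0)
    · rw [Set.indicator_of_notMem (show x ∉ {x | p x} from hp)]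

theorem pf_GRA : T_GRA := by
  intro K _ _ _ P R F a b l hP hR hF ha hb hl
  classical
  set f : K → ℝ := fun γ => F ((em K γ - 1) / R) with hf
  have hfR : ∀ γ, f γ ≠ 0 → ‖em K γ - 1‖ ≤ R := by
    intro γ h
    by_contra hlt
    refine h (hF _ ?_)
    rw [norm_div, Complex.norm_real, Real.norm_eq_abs, abs_of_pos hR, one_lt_div hR]
    exact not_le.1 hlt
  set T : Finset K := (fin_disc (a := a) hb R).toFinset with hT
  have hmT : ∀ γ, γ ∈ qf a b → f γ ≠ 0 → γ ∈ T := by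
    intro γ h1 h2
    rw [hT, Set.Finite.mem_toFinset]
    exact ⟨h1, hfR γ h2⟩
  have hL : ∑' γ : Ga P a b l, f γ.1 = ∑ γ ∈ T, (if γ ∈ Ga P a b l then 1 else 0) * f γ := by
    refine tsum_sub (fun γ => γ ∈ Ga P a b l) f T fun γ h1 h2 => hmT γ ?_ h2
    obtain ⟨m, -, -, hm⟩ := h1.1
    exact (mem_qf hb γ).2 ⟨m, hm⟩
  have hRs : ∀ A B : Finset (PrI K),
      ∑' γ : {γ : K // γ ∈ qf (idS A * a) b ∧ γ - 1 ∈ qf (idS B * l) b}, f γ.1 =
        ∑ γ ∈ T, (if γ ∈ qf (idS A * a) b ∧ γ - 1 ∈ qf (idS B * l) b then 1 else 0) * f γ := by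
    intro A B
    refine tsum_sub (fun γ => γ ∈ qf (idS A * a) b ∧ γ - 1 ∈ qf (idS B * l) b) f T
      fun γ h1 h2 => hmT γ (qf_le hb h1.1) h2
  have hind : ∀ γ : K, (if γ ∈ Ga P a b l then (1 : ℝ) else 0) =
      ∑ A ∈ (SP K P).powerset, ∑ B ∈ (SP K P).powerset, (-1 : ℝ) ^ (A.card + B.card) *
        (if γ ∈ qf (idS A * a) b ∧ γ - 1 ∈ qf (idS B * l) b then 1 else 0) := by
    intro γ
    have h1 := ind P hP ha hb γ
    have h2 := ind P hP hl hb (γ - 1)
    have h3 : (if γ ∈ Ga P a b l then (1 : ℝ) else 0) =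
        (if ∃ m, m ≠ ⊥ ∧ Cp P m ∧ Mu γ b (a * m) then 1 else 0) *
          (if ∃ m, m ≠ ⊥ ∧ Cp P m ∧ Mu (γ - 1) b (l * m) then 1 else 0) := by
      by_cases hA : ∃ m, m ≠ ⊥ ∧ Cp P m ∧ Mu γ b (a * m)
      · by_cases hB : ∃ m, m ≠ ⊥ ∧ Cp P m ∧ Mu (γ - 1) b (l * m)
        · rw [if_pos (show γ ∈ Ga P a b l from ⟨hA, hB⟩), if_pos hA, if_pos hB, mul_one]
        · rw [if_neg (fun h : γ ∈ Ga P a b l => hB h.2), if_neg hB, mul_zero]
      · rw [if_neg (fun h : γ ∈ Ga P a b l => hA h.1), if_neg hA, zero_mul]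
    rw [h3, ← h1, ← h2, Finset.sum_mul_sum]
    refine Finset.sum_congr rfl fun A _ => Finset.sum_congr rfl fun B _ => ?_
    by_cases hA : γ ∈ qf (idS A * a) b <;> by_cases hB : γ - 1 ∈ qf (idS B * l) b <;>
      simp [hA, hB, pow_add]
  calc ∑' γ : Ga P a b l, F ((em K γ.1 - 1) / R) = ∑' γ : Ga P a b l, f γ.1 := rfl
    _ = ∑ γ ∈ T, (if γ ∈ Ga P a b l then 1 else 0) * f γ := hL
    _ = ∑ γ ∈ T, ∑ A ∈ (SP K P).powerset, ∑ B ∈ (SP K P).powerset,
          (-1 : ℝ) ^ (A.card + B.card) *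
          ((if γ ∈ qf (idS A * a) b ∧ γ - 1 ∈ qf (idS B * l) b then 1 else 0) * f γ) := by
        refine Finset.sum_congr rfl fun γ _ => ?_
        rw [hind γ, Finset.sum_mul]
        refine Finset.sum_congr rfl fun A _ => ?_
        rw [Finset.sum_mul]
        refine Finset.sum_congr rfl fun B _ => ?_
        rw [mul_assoc]
    _ = ∑ A ∈ (SP K P).powerset, ∑ B ∈ (SP K P).powerset, (-1) ^ (A.card + B.card) *
          ∑' γ : {γ : K // γ ∈ qf (idS A * a) b ∧ γ - 1 ∈ qf (idS B * l) b}, f γ.1 := by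
        rw [Finset.sum_comm]
        refine Finset.sum_congr rfl fun A _ => ?_
        rw [Finset.sum_comm]
        refine Finset.sum_congr rfl fun B _ => ?_
        rw [hRs A B, Finset.mul_sum]

end Pool.Agent.H99.HH
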