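import Pool.Agent.H33.HH.TC

/-!
# Module THD: the derivatives of the sums over the complementary divisors
-/

set_option autoImplicit false

open NumberField Filter Topology
open scoped ContDiff nonZeroDivisors

namespace Pool.Agent.H99.HH

open Pool.Agent.H33.HH Pool.Agent.H28.RC Pool.Agent.H37.CV

theorem nm_one_le {K : Type} [Field K] [NumberField K] (l : NI K) : 1 ≤ nm l.1 := by
  unfold nm
  have h0 : Ideal.absNorm l.1 ≠ 0 := fun h => l.2 (Ideal.absNorm_eq_zero_iff.1 h)
  exact_mod_cast Nat.one_le_iff_ne_zero.2 h0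

theorem nm_fin (K : Type) [Field K] [NumberField K] (X : ℝ) : {l : NI K | nm l.1 ≤ X}.Finite := by
  have hf : {I : Ideal (𝓞 K) | Ideal.absNorm I ≤ ⌊X⌋₊}.Finite :=
    Ideal.finite_setOfPred_absNorm_le _
  refine Set.Finite.of_injOn (f := fun l : NI K => l.1) (t := {I | Ideal.absNorm I ≤ ⌊X⌋₊})
    ?_ (Subtype.val_injective.injOn) hf
  intro l hl
  exact Nat.le_floor hl

theorem thd_small {K : Type} [Field K] [NumberField K] {δ X : ℝ} (hδ : 0 < δ) (l : NI K)
    (hl : l ∉ (nm_fin K (X / δ)).toFinset) (x : ℝ) (hx : x < X) : x / nm l.1 < δ := by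
  have hl' : X / δ < nm l.1 := by
    by_contra h
    exact hl ((nm_fin K (X / δ)).mem_toFinset.2 (not_lt.1 h))
  have hp : 0 < nm l.1 := lt_of_lt_of_le zero_lt_one (nm_one_le l)
  rw [div_lt_iff₀ hp]
  rw [div_lt_iff₀ hδ] at hl'
  linarith

theorem pf_THD : T_THD := by
  intro K _ _ _ w δ hw hδ h1 _
  have hS : ∀ X x : ℝ, x < X → (∑' l : NI K, (nm l.1)⁻¹ * w (x / nm l.1)) =
      ∑ l ∈ (nm_fin K (X / δ)).toFinset, (nm l.1)⁻¹ * w (x / nm l.1) := by
    intro X x hx
    refine tsum_eq_sum fun l hl => ?_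
    rw [h1 _ (thd_small hδ l hl x hx).le, mul_zero]
  have hev : ∀ x : ℝ, (fun y => ∑' l : NI K, (nm l.1)⁻¹ * w (y / nm l.1)) =ᶠ[𝓝 x]
      fun y => ∑ l ∈ (nm_fin K ((x + 1) / δ)).toFinset, (nm l.1)⁻¹ * w (y / nm l.1) := by
    intro x
    filter_upwards [Iio_mem_nhds (lt_add_one x)] with y hy
    exact hS (x + 1) y hy
  refine ⟨?_, ?_⟩
  · rw [contDiff_iff_contDiffAt]
    intro x
    refine ContDiffAt.congr_of_eventuallyEq ?_ (hev x)
    refine ContDiff.contDiffAt ?_
    refine ContDiff.sum fun l _ => ?_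
    exact contDiff_const.mul (hw.comp (contDiff_id.div_const _))
  · intro x
    rw [(hev x).deriv_eq]
    have hd : HasDerivAt (fun y => ∑ l ∈ (nm_fin K ((x + 1) / δ)).toFinset,
        (nm l.1)⁻¹ * w (y / nm l.1)) (∑ l ∈ (nm_fin K ((x + 1) / δ)).toFinset,
        (nm l.1)⁻¹ * (deriv w (x / nm l.1) * (1 / nm l.1))) x := by
      refine HasDerivAt.fun_sum fun l _ => ?_
      have hw1 : HasDerivAt w (deriv w (x / nm l.1)) (x / nm l.1) :=
        ((hw.differentiable (by simp)) _).hasDerivAt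
      exact (hw1.comp x ((hasDerivAt_id x).div_const (nm l.1))).const_mul _
    rw [hd.deriv, Finset.mul_sum]
    rw [tsum_eq_sum (s := (nm_fin K ((x + 1) / δ)).toFinset)]
    · refine Finset.sum_congr rfl fun l _ => ?_
      ring
    · intro l hl
      have hlt := thd_small hδ l hl x (lt_add_one x)
      have h0 : w =ᶠ[𝓝 (x / nm l.1)] fun _ => 0 := by
        filter_upwards [Iio_mem_nhds hlt] with t ht
        exact h1 t (le_of_lt ht)
      rw [h0.deriv_eq, deriv_const, mul_zero, mul_zero]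

end Pool.Agent.H99.HH
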